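import Pool.Agent.Q213.SGg

/-!
# There is no strongly universal countable 2-sphere graph

`sections d` is the family of all sections of the closed unit ball of `ℝ^(d+1)` by affine
hyperplanes, `interGraph F` the intersection graph of a family `F` of sets, and a `d`-sphere graph
is a graph isomorphic to the intersection graph of a subfamily of `sections d`.
-/

namespace Pool.Agent.Results.MP_7578b2_co.NoUniversal

/-- The sections of the closed unit ball of `ℝ^(d+1)` by affine hyperplanes. -/
def sections (d : ℕ) : Set (Set (EuclideanSpace ℝ (Fin (d + 1)))) :=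
  {s | ∃ (n : EuclideanSpace ℝ (Fin (d + 1))) (t : ℝ), n ≠ 0 ∧
    s = {x | ‖x‖ ≤ 1 ∧ inner ℝ n x = t}}

/-- The intersection graph of a family of sets: the vertices are the members, two distinct members
are adjacent if they have a common point. -/
def interGraph {E : Type} (F : Set (Set E)) : SimpleGraph F where
  Adj s t := s ≠ t ∧ ((s : Set E) ∩ (t : Set E)).Nonempty
  symm := ⟨fun s t h => ⟨h.1.symm, by rw [Set.inter_comm]; exact h.2⟩⟩
  loopless := ⟨fun s h => h.1 rfl⟩

/-- `G` is a `d`-sphere graph. -/
def IsSphereGraph (d : ℕ) {V : Type} (G : SimpleGraph V) : Prop :=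
  ∃ F : Set (Set (EuclideanSpace ℝ (Fin (d + 1)))), F ⊆ sections d ∧
    Nonempty (G ≃g interGraph F)

/-- For every countable family of countable 2-sphere graphs there is a countable 2-sphere graph
which is not an induced subgraph of any of them. -/
theorem result (I : Type) [Countable I] (V : I → Type) [∀ i, Countable (V i)]
    (U : ∀ i, SimpleGraph (V i)) (hU : ∀ i, IsSphereGraph 2 (U i)) :
    ∃ (W : Type) (_ : Countable W) (G : SimpleGraph W), IsSphereGraph 2 G ∧
      ∀ i, IsEmpty (G ↪g U i) :=
  Q213.SG.no_universal I V U hU

end Pool.Agent.Results.MP_7578b2_co.NoUniversal
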